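import Mathlib

/-!
# Independent domination and weak domination in trees

For every tree the independent domination number is at most the weak domination number.

Proof. Let `D` be a weak dominating set of the tree, root the tree at `r` and put, going down from
the root, `x` into `I` iff the parent of `x` is not in `I` and `x` or a child of `x` is in `D`.
Then `I` is independent, and `x ↦ x` (if `x ∈ D`), `x ↦` a child of `x` in `D` (otherwise) is an
injection from `I` to `D`. If `x ∉ I` has no parent in `I`, then neither `x` nor a child of `x`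
is in `D`, so `x` is dominated by its parent `u`, and `u ∉ I` has a parent; hence `x` has degree at
least `2` and has a child `y`; it is not in `D`, so it has a child in `D`, hence `y ∈ I`.
-/

set_option autoImplicit false

namespace Pool.Agent.Results.MP_2d208d_co.TreesWeakDomination

open Finset

variable {V : Type*} [Fintype V]

/-- Every vertex outside `D` has a neighbour in `D`. -/
def Dominating (G : SimpleGraph V) (D : Finset V) : Prop :=
  ∀ v, v ∉ D → ∃ u ∈ D, G.Adj v u

/-- No two vertices of `D` are adjacent. -/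
def Independent (G : SimpleGraph V) (D : Finset V) : Prop :=
  ∀ u ∈ D, ∀ v ∈ D, ¬ G.Adj u v

open Classical in
/-- Every vertex `v` outside `D` has a neighbour `u` in `D` with `deg u ≤ deg v`. -/
def WeakDominating (G : SimpleGraph V) (D : Finset V) : Prop :=
  ∀ v, v ∉ D → ∃ u ∈ D, G.Adj v u ∧ G.degree u ≤ G.degree v

/-- The independent domination number: the least size of an independent dominating set. -/
noncomputable def iNum (G : SimpleGraph V) : ℕ :=
  sInf {k | ∃ D : Finset V, Independent G D ∧ Dominating G D ∧ D.card = k}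

/-- The weak domination number: the least size of a weak dominating set. -/
noncomputable def weakNum (G : SimpleGraph V) : ℕ :=
  sInf {k | ∃ D : Finset V, WeakDominating G D ∧ D.card = k}

variable {G : SimpleGraph V}

omit [Fintype V] in
/-- the levels of adjacent vertices differ by one -/
theorem level (hG : G.IsTree) (r : V) {x y : V} (h : G.Adj x y) :
    G.dist r x + 1 = G.dist r y ∨ G.dist r y + 1 = G.dist r x := by
  have h1 := hG.dist_ne_of_adj r h
  have h2 := h.diff_dist_adj (u := r)
  omega

omit [Fintype V] in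
/-- the parent is unique -/
theorem parent_unique (hG : G.IsTree) (r : V) {x y z : V} (hy : G.Adj y x) (hz : G.Adj z x)
    (dy : G.dist r y + 1 = G.dist r x) (dz : G.dist r z + 1 = G.dist r x) : y = z := by
  have key : ∀ w : V, ∀ hw : G.Adj w x, G.dist r w + 1 = G.dist r x →
      ∃ p : G.Walk r w, (p.concat hw).IsPath := by
    intro w hw dw
    obtain ⟨p, hp⟩ := (hG.connected r w).exists_walk_length_eq_dist
    refine ⟨p, SimpleGraph.Walk.isPath_of_length_eq_dist _ ?_⟩
    rw [SimpleGraph.Walk.length_concat, hp, dw]
  obtain ⟨p, hp⟩ := key y hy dy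
  obtain ⟨q, hq⟩ := key z hz dz
  have h := (hG.isAcyclic.subsingleton_path r x).elim ⟨_, hp⟩ ⟨_, hq⟩
  have h2 : p.concat hy = q.concat hz := congrArg Subtype.val h
  have h3 := congrArg SimpleGraph.Walk.penultimate h2
  simpa using h3

open Classical in
/-- the greedy choice from the root -/
noncomputable def chosen (G : SimpleGraph V) (r : V) (D : Finset V) (x : V) : Prop :=
  (∀ y, G.Adj y x → (h : G.dist r y + 1 = G.dist r x) → ¬ chosen G r D y) ∧
    (x ∈ D ∨ ∃ y ∈ D, G.Adj x y ∧ G.dist r x + 1 = G.dist r y)
termination_by G.dist r x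
decreasing_by omega

theorem iNum_le_card (hG : G.IsTree) {D : Finset V} (hD : WeakDominating G D) :
    iNum G ≤ D.card := by
  classical
  obtain ⟨r⟩ : Nonempty V := hG.connected.nonempty
  set I : Finset V := univ.filter fun x => chosen G r D x with hI
  have hmem : ∀ x, x ∈ I ↔ (∀ y, G.Adj y x → G.dist r y + 1 = G.dist r x → y ∉ I) ∧
      (x ∈ D ∨ ∃ y ∈ D, G.Adj x y ∧ G.dist r x + 1 = G.dist r y) := by
    intro x
    simp only [hI, mem_filter, mem_univ, true_and]
    rw [chosen]
  have hind : Independent G I := by
    intro x hx y hy hxy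
    rcases level hG r hxy with h | h
    · exact ((hmem y).1 hy).1 x hxy h hx
    · exact ((hmem x).1 hx).1 y hxy.symm h hy
  have hdom : Dominating G I := by
    intro x hx
    by_cases hp : ∃ y ∈ I, G.Adj x y
    · exact hp
    push Not at hp
    exfalso
    have hx1 : ¬ (x ∈ D ∨ ∃ y ∈ D, G.Adj x y ∧ G.dist r x + 1 = G.dist r y) := by
      intro h
      exact hx ((hmem x).2 ⟨fun y hy _ hyI => hp y hyI hy.symm, h⟩)
    push Not at hx1
    obtain ⟨hxD, hch⟩ := hx1
    obtain ⟨u, huD, hxu, hdeg⟩ := hD x hxD
    have hu : G.dist r u + 1 = G.dist r x := by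
      rcases level hG r hxu with h | h
      · exact absurd h (hch u huD hxu)
      · exact h
    have huI : u ∉ I := fun h => hp u h hxu
    obtain ⟨w, hwu, hw, hwI⟩ : ∃ w, G.Adj w u ∧ G.dist r w + 1 = G.dist r u ∧ w ∈ I := by
      by_contra hcon
      push Not at hcon
      exact huI ((hmem u).2 ⟨hcon, Or.inl huD⟩)
    have hxw : x ≠ w := by
      rintro rfl
      omega
    have hdu : 1 < G.degree u := by
      rw [← SimpleGraph.card_neighborFinset_eq_degree, one_lt_card]
      exact ⟨x, by simpa using hxu.symm, w, by simpa using hwu.symm, hxw⟩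
    have hdx : 1 < G.degree x := lt_of_lt_of_le hdu hdeg
    rw [← SimpleGraph.card_neighborFinset_eq_degree, one_lt_card] at hdx
    obtain ⟨y, hy, hyu⟩ : ∃ y, G.Adj x y ∧ y ≠ u := by
      obtain ⟨a, ha, b, hb, hab⟩ := hdx
      by_cases h : a = u
      · exact ⟨b, by simpa using hb, fun h2 => hab (h.trans h2.symm)⟩
      · exact ⟨a, by simpa using ha, h⟩
    have hyx : G.dist r x + 1 = G.dist r y := by
      rcases level hG r hy with h | h
      · exact h
      · exact absurd (parent_unique hG r hy.symm hxu.symm h hu) hyu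
    have hyD : y ∉ D := fun h => hch y h hy hyx
    obtain ⟨v, hvD, hyv, -⟩ := hD y hyD
    have hvx : v ≠ x := fun h => hxD (h ▸ hvD)
    have hv : G.dist r y + 1 = G.dist r v := by
      rcases level hG r hyv with h | h
      · exact h
      · exact absurd (parent_unique hG r hyv.symm hy h hyx) hvx
    have hyI : y ∈ I := by
      refine (hmem y).2 ⟨?_, Or.inr ⟨v, hvD, hyv, hv⟩⟩
      intro z hz hzy hzI
      have : z = x := parent_unique hG r hz hy hzy hyx
      exact hx (this ▸ hzI)
    exact hp y hyI hy
  have hcard : I.card ≤ D.card := by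
    have hf : ∀ x ∈ I, ∃ y ∈ D, y = x ∨ (G.Adj x y ∧ G.dist r x + 1 = G.dist r y) := by
      intro x hx
      rcases ((hmem x).1 hx).2 with h | ⟨y, h1, h2, h3⟩
      · exact ⟨x, h, Or.inl rfl⟩
      · exact ⟨y, h1, Or.inr ⟨h2, h3⟩⟩
    choose! f hf1 hf2 using hf
    refine card_le_card_of_injOn f (fun x hx => hf1 x hx) ?_
    intro x hx x' hx' heq
    rw [mem_coe] at hx hx'
    rcases hf2 x hx with h | ⟨h1, h2⟩ <;> rcases hf2 x' hx' with h' | ⟨h1', h2'⟩
    · rw [← h, ← h', heq]
    · have e : f x' = x := heq.symm.trans h
      rw [e] at h1'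
      exact absurd h1' (hind x' hx' x hx)
    · have e : f x = x' := heq.trans h'
      rw [e] at h1
      exact absurd h1 (hind x hx x' hx')
    · rw [← heq] at h1' h2'
      exact parent_unique hG r h1 h1' h2 h2'
  refine le_trans (Nat.sInf_le ⟨I, hind, hdom, rfl⟩) hcard

/-- **Independent versus weak domination in trees.** `i(T) ≤ γ_W(T)` for every finite tree `T`. -/
theorem result {V : Type*} [Fintype V] (G : SimpleGraph V) (hG : G.IsTree) :
    iNum G ≤ weakNum G := by
  classical
  have hne : {k | ∃ D : Finset V, WeakDominating G D ∧ D.card = k}.Nonempty :=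
    ⟨_, univ, fun v hv => absurd (mem_univ v) hv, rfl⟩
  obtain ⟨D, hD, hk⟩ := Nat.sInf_mem hne
  unfold weakNum
  rw [← hk]
  exact iNum_le_card hG hD

end Pool.Agent.Results.MP_2d208d_co.TreesWeakDomination
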